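import Pool.Agent.MP_6a4325_al.H62.Base2

/-!
Row CORE of the second plan.
-/

set_option autoImplicit false

namespace Pool.Agent.MP_6a4325_al.H97

open Pool.Agent.MP_6a4325_al.H62

section

variable {G : Type} [Group G]

theorem cm_iff {H K : Subgroup G} : Cm H K ↔ H ≤ Subgroup.centralizer (K : Set G) :=
  ⟨fun h a ha => Subgroup.mem_centralizer_iff.2 fun b hb => (h a ha b hb).symm,
    fun h a ha b hb => (Subgroup.mem_centralizer_iff.1 (h ha) b hb).symm⟩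

theorem cm_symm {H K : Subgroup G} (h : Cm H K) : Cm K H := fun a ha b hb => (h b hb a ha).symm

theorem cm_sup_left {H H' K : Subgroup G} (h : Cm H K) (h' : Cm H' K) : Cm (H ⊔ H') K :=
  cm_iff.2 (sup_le (cm_iff.1 h) (cm_iff.1 h'))

theorem cm_sup {A B : Subgroup G} (hA : Cm A A) (hB : Cm B B) (h : Cm A B) :
    Cm (A ⊔ B) (A ⊔ B) :=
  cm_sup_left (cm_symm (cm_sup_left hA (cm_symm h))) (cm_symm (cm_sup_left h hB))

theorem cm_zpowers {x : G} {K : Subgroup G} (h : ∀ b ∈ K, x * b = b * x) :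
    Cm (Subgroup.zpowers x) K :=
  cm_iff.2 ((Subgroup.zpowers_le).2 (Subgroup.mem_centralizer_iff.2 fun b hb => (h b hb).symm))

theorem comm_pow_right {x y : G} (h : Commute (x * y * x⁻¹ * y⁻¹) y) (n : ℕ) :
    x * y ^ n * x⁻¹ * (y ^ n)⁻¹ = (x * y * x⁻¹ * y⁻¹) ^ n := by
  have e : x * y ^ n * x⁻¹ = (x * y * x⁻¹ * y⁻¹) ^ n * y ^ n := by
    rw [← h.mul_pow, ← conj_pow]; simp
  rw [e]; simp

theorem comm_pow_left {x y : G} (h : Commute (x * y * x⁻¹ * y⁻¹) x) (n : ℕ) :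
    x ^ n * y * (x ^ n)⁻¹ * y⁻¹ = (x * y * x⁻¹ * y⁻¹) ^ n := by
  have e : y * (x ^ n)⁻¹ * y⁻¹ = (x ^ n)⁻¹ * (x * y * x⁻¹ * y⁻¹) ^ n := by
    rw [← inv_pow, ← h.symm.inv_left.mul_pow, ← conj_pow]; congr 1; group
  calc x ^ n * y * (x ^ n)⁻¹ * y⁻¹ = x ^ n * (y * (x ^ n)⁻¹ * y⁻¹) := by group
    _ = _ := by rw [e]; simp

theorem comm_eq_one {x y : G} : x * y * x⁻¹ * y⁻¹ = 1 ↔ x * y = y * x := by
  rw [mul_inv_eq_one, mul_inv_eq_iff_eq_mul]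

/-- a maximal abelian subgroup between `C₁` and `C` -/
theorem exists_max_ab {C₁ C : Subgroup G} (h : C₁ ≤ C) (hc : Cm C₁ C₁) :
    ∃ B : Subgroup G, C₁ ≤ B ∧ B ≤ C ∧ Cm B B ∧
      ∀ x ∈ C, (∀ b ∈ B, x * b = b * x) → x ∈ B := by
  obtain ⟨B, hB, hmax⟩ := zorn_le_nonempty₀ {B : Subgroup G | B ≤ C ∧ Cm B B}
    (fun c hcs hch y hy => ⟨sSup c, ⟨sSup_le fun z hz => (hcs hz).1, fun a ha b hb => by
      obtain ⟨A, hA, ha⟩ := (Subgroup.mem_sSup_of_directedOn ⟨y, hy⟩ hch.directedOn).1 ha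
      obtain ⟨A', hA', hb⟩ := (Subgroup.mem_sSup_of_directedOn ⟨y, hy⟩ hch.directedOn).1 hb
      rcases hch.total hA hA' with h1 | h1
      · exact (hcs hA').2 a (h1 ha) b hb
      · exact (hcs hA).2 a ha b (h1 hb)⟩, fun z hz => le_sSup hz⟩) C₁ ⟨h, hc⟩
  refine ⟨B, hB, hmax.prop.1, hmax.prop.2, fun x hx hxb => ?_⟩
  have h1 : Subgroup.zpowers x ⊔ B ≤ B := hmax.le_of_ge
    ⟨sup_le ((Subgroup.zpowers_le).2 hx) hmax.prop.1,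
      cm_sup (cm_zpowers fun b hb => by
        obtain ⟨k, rfl⟩ := Subgroup.mem_zpowers_iff.1 hb
        exact (Commute.self_zpow x k)) hmax.prop.2 (cm_zpowers hxb)⟩ le_sup_right
  exact h1 (Subgroup.mem_sup_left (Subgroup.mem_zpowers x))

theorem normal_of_between {C₁ C X : Subgroup G} (h : ∀ c ∈ C, ∀ g : G, c * g * c⁻¹ * g⁻¹ ∈ C₁)
    (h1 : C₁ ≤ X) (h2 : X ≤ C) : X.Normal := ⟨fun x hx g => by
  have e : g * x * g⁻¹ = x * (x⁻¹ * g * x⁻¹⁻¹ * g⁻¹) := by group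
  rw [e]
  exact X.mul_mem hx (h1 (h _ (C.inv_mem (h2 hx)) g))⟩

end

theorem core (hAL : SAL) (hNil : SNil2) (hRel : SRel) : SCore := by
  intro p _ lva G _ hG hP C₁ C hC₁ hC hle hcm hcom hI
  have R := hRel p lva
  have hc1 : Cm C₁ C₁ := fun a ha b hb => hcm a ha b (hle hb)
  have hpt : NoPT p C₁ := hP.noPT hC₁ hc1
  obtain ⟨B, hB1, hBC, hBB, hBmax⟩ := exists_max_ab hle hc1
  have hBn : B.Normal := normal_of_between hcom hB1 hBC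
  obtain ⟨N₁, B₀, hN₁, hB₀B, -, hi₀, -, -, hR₁⟩ :=
    hAL p lva G B hG hBn hBB (hP.noPT hBn hBB) (hI.mono hB1)
  set e := B₀.relIndex B with he
  have hpow : ∀ b ∈ B, b ^ e ∈ B₀ := fun b hb => by
    have hn : (B₀.subgroupOf B).Normal := Nz.normal_subgroupOf fun k hk h hh => by
      rw [hBB k hk h (hB₀B hh)]; simpa using hh
    exact (B₀.subgroupOf B).pow_index_mem ⟨b, hb⟩
  set D : Subgroup G := N₁ ⊓ Subgroup.centralizer (B₀ : Set G) ⊓ C with hD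
  have hRD : Rel p lva D (N₁ ⊓ C) := R.inf G _ _ C hR₁
  have hcen : ∀ x ∈ C, ∀ y : G, ∀ z ∈ C, Commute (x * y * x⁻¹ * y⁻¹) z := fun x hx y z hz =>
    hcm _ (hcom x hx y) z hz
  have hDB₀ : ∀ x ∈ D, ∀ b ∈ B₀, b * x = x * b := fun x hx b hb =>
    Subgroup.mem_centralizer_iff.1 hx.1.2 b hb
  have hxe : ∀ x ∈ D, x ^ e ∈ B := fun x hx => hBmax _ (C.pow_mem hx.2 e) fun b hb => by
    rw [← comm_eq_one, comm_pow_left (hcen x hx.2 b x hx.2),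
      ← comm_pow_right (hcen x hx.2 b b (hBC hb)), comm_eq_one]
    exact (hDB₀ x hx _ (hpow b hb)).symm
  have hee : ∀ x ∈ D, ∀ y ∈ D, (x * y * x⁻¹ * y⁻¹) ^ (e * e) = 1 := fun x hx y hy => by
    rw [← comm_pow_left (hcen x hx.2 y x hx.2), comm_eq_one, pow_mul]
    exact hDB₀ y hy _ (hpow _ (hxe x hx))
  have hp : p.Prime := Fact.out
  obtain ⟨j, m, hm1, hm2⟩ := Nat.exists_eq_pow_mul_and_not_dvd (mul_ne_zero hi₀ hi₀) p hp.ne_one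
  have hm : ∀ x ∈ D, ∀ y ∈ D, (x * y * x⁻¹ * y⁻¹) ^ m = 1 := fun x hx y hy =>
    hpt.pow_pow (C₁.pow_mem (hcom x hx.2 y) m) j (by
      rw [← pow_mul, mul_comm, ← hm2]; exact hee x hx y hy)
  obtain ⟨A, hAn, hAi, hAc⟩ := hNil p D (hG.2.1.sub D)
    (fun x y z => Subtype.ext (hcen x x.2.2 y z z.2.2)) m
    (Nat.pos_of_ne_zero fun e => hm1 (by simp [e]))
    ((Nat.Prime.coprime_iff_not_dvd hp).2 hm1).symm
    (fun x y => Subtype.ext (hm x x.2 y y.2))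
  set D₁ : Subgroup G := A.map D.subtype with hD₁
  have hD₁D : D₁ ≤ D := Subgroup.map_subtype_le A
  have hD₁c : Cm D₁ D₁ := by
    rintro _ ⟨a, ha, rfl⟩ _ ⟨b, hb, rfl⟩
    exact congrArg Subtype.val (hAc a ha b hb)
  have hD₁n : Nz D₁ D := by
    rintro k hk _ ⟨a, ha, rfl⟩
    exact ⟨_, hAn.conj_mem a ha ⟨k, hk⟩, rfl⟩
  have hD₁i : D₁.relIndex D ≠ 0 := by
    have : D₁.subgroupOf D = A := Subgroup.comap_map_eq_self_of_injective D.subtype_injective A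
    rw [Subgroup.relIndex, this]
    exact hAi.index_ne_zero
  have hR₂ : Rel p lva D₁ (N₁ ⊓ C) := R.trans G _ _ _ (R.fin G _ _ hG.1 hD₁D hD₁n hD₁i) hRD
  set B' : Subgroup G := D₁ ⊔ C₁ with hB'
  have hD₁C : D₁ ≤ C := hD₁D.trans inf_le_right
  have hB'C : B' ≤ C := sup_le hD₁C hle
  have hB'c : Cm B' B' := cm_sup hD₁c hc1 (cm_symm fun a ha b hb => hcm a ha b (hD₁C hb))
  have hB'n : B'.Normal := normal_of_between hcom le_sup_right hB'C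
  obtain ⟨N₂, B₂, hN₂, hB₂B, hB₂N, hi₂, hnz₂, hR₃, -⟩ :=
    hAL p lva G B' hG hB'n hB'c (hP.noPT hB'n hB'c) (hI.mono le_sup_right)
  refine ⟨N₁ ⊓ N₂, B₂ ⊓ Subgroup.centralizer (N₂ : Set G) ⊓ N₁, inferInstance,
    fun z hz => ⟨hB'C (hB₂B hz.1.1), hz.2, hB₂N hz.1.1⟩,
    fun z hz g hg => (Subgroup.mem_centralizer_iff.1 hz.1.2 g hg.2).symm, ?_⟩
  have s1 : Rel p lva (B₂ ⊓ Subgroup.centralizer (N₂ : Set G) ⊓ N₁) (B₂ ⊓ N₁) :=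
    R.inf G _ _ N₁ hR₃
  have s2 : Rel p lva (B₂ ⊓ N₁) (B' ⊓ (N₁ ⊓ N₂)) := R.fin G _ _ hG.1
    (fun z hz => ⟨hB₂B hz.1, hz.2, hB₂N hz.1⟩)
    (fun k hk h hh => ⟨hnz₂ k hk.2.2 h hh.1,
      N₁.mul_mem (N₁.mul_mem hk.2.1 hh.2) (N₁.inv_mem hk.2.1)⟩)
    (Subgroup.relIndex_inf_ne_zero
      (fun h0 => hi₂ (Subgroup.relIndex_eq_zero_of_le_right inf_le_left h0))
      (by rw [Subgroup.relIndex_eq_one.2 (inf_le_right.trans inf_le_left)]; exact one_ne_zero))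
  have s3 : Rel p lva (D₁ ⊓ N₂) (C ⊓ (N₁ ⊓ N₂)) := by
    have := R.inf G _ _ N₂ hR₂
    rwa [inf_comm N₁ C, inf_assoc] at this
  have s4 : Rel p lva (B' ⊓ (N₁ ⊓ N₂)) (C ⊓ (N₁ ⊓ N₂)) := R.up G (D₁ ⊓ N₂) _ _
    (fun z hz => ⟨Subgroup.mem_sup_left hz.1, (hD₁D hz.1).1.1, hz.2⟩)
    (inf_le_inf_right _ hB'C)
    (fun k hk h hh => ⟨hB'n.conj_mem h hh.1 k,
      (N₁ ⊓ N₂).mul_mem ((N₁ ⊓ N₂).mul_mem hk.2 hh.2) ((N₁ ⊓ N₂).inv_mem hk.2)⟩) s3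
  exact R.trans G _ _ _ s1 (R.trans G _ _ _ s2 s4)

end Pool.Agent.MP_6a4325_al.H97
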