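import Pool.Agent.MP_6a4325_al.H62.Base2

/-!
Row HOM of the second plan.
-/

set_option autoImplicit false

namespace Pool.Agent.MP_6a4325_al.H97

open Pool.Agent.MP_6a4325_al.H62

theorem pow_pow_eq_one {X : Type} [Monoid X] {p : ℕ} (h : ∀ x : X, x ^ p = 1 → x = 1) (x : X)
    (j : ℕ) (hj : x ^ p ^ j = 1) : x = 1 := by
  induction j with
  | zero => simpa using hj
  | succ j ih => exact ih (h _ (by rw [← pow_mul, ← pow_succ, hj]))

theorem units_noPT (p : ℕ) [Fact p.Prime] {k : Type} [Field k] [CharP k p] (x : kˣ)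
    (h : x ^ p = 1) : x = 1 := by
  apply Units.ext
  apply frobenius_inj k p
  rw [frobenius_def, ← Units.val_pow_eq_pow_val, h, Units.val_one, map_one]

theorem units_fin {k : Type} [Field k] (m : ℕ) (hm : 0 < m) : {x : kˣ | x ^ m = 1}.Finite := by
  haveI : NeZero m := ⟨hm.ne'⟩
  exact Set.finite_coe_iff.1 (inferInstanceAs (Finite (rootsOfUnity m k)))

theorem units_tors {k : Type} [Field k] (h : Absolute k) (x : kˣ) : IsOfFinOrder x := by
  obtain ⟨m, hm, e⟩ := isOfFinOrder_iff_pow_eq_one.1 (h x x.ne_zero)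
  exact isOfFinOrder_iff_pow_eq_one.2 ⟨m, hm, Units.ext (by simpa using e)⟩

section Coc

variable {G X : Type} [Group G] [CommGroup X] {φ : G →* MulAut X} {δ : G → X}

theorem coc_one (h : ∀ g h, δ (g * h) = δ g * φ g (δ h)) : δ 1 = 1 := by
  simpa using h 1 1

/-- the elements on which a power of the cocycle vanishes -/
def cocKer (h : ∀ g h, δ (g * h) = δ g * φ g (δ h)) (M : ℕ) : Subgroup G where
  carrier := {g | δ g ^ M = 1}
  one_mem' := by simp [coc_one h]
  mul_mem' := fun {a b} ha hb => by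
    change δ (a * b) ^ M = 1
    rw [h, mul_pow, ← map_pow, show δ a ^ M = 1 from ha, show δ b ^ M = 1 from hb, map_one,
      one_mul]
  inv_mem' := fun {a} ha => by
    change δ a⁻¹ ^ M = 1
    have e := congrArg (· ^ M) (h a⁻¹ a)
    simp only [inv_mul_cancel, coc_one h, one_pow, mul_pow] at e
    rw [← map_pow, show δ a ^ M = 1 from ha, map_one, mul_one] at e
    exact e.symm

theorem exists_pow_fix (φ : G →* MulAut X) (h1 : ∀ x : X, IsOfFinOrder x)
    (h2 : ∀ m : ℕ, 0 < m → {x : X | x ^ m = 1}.Finite) (v : X) :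
    ∃ N : ℕ, 0 < N ∧ ∀ y : G, φ (y ^ N) v = v := by
  obtain ⟨r, hr, e⟩ := isOfFinOrder_iff_pow_eq_one.1 (h1 v)
  have hf : (MulAction.orbit (MulAut X) v).Finite := (h2 r hr).subset (by
    rintro _ ⟨a, rfl⟩
    change (a v) ^ r = 1
    rw [← map_pow, e, map_one])
  have hi : (MulAction.stabilizer (MulAut X) v).index ≠ 0 := by
    rw [MulAction.index_stabilizer]
    exact ((Set.ncard_pos hf).2 (MulAction.nonempty_orbit v)).ne'
  refine ⟨(MulAction.stabilizer (MulAut X) v).index.factorial, Nat.factorial_pos _, fun y => ?_⟩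
  rw [map_pow]
  exact Subgroup.pow_mem_of_index_ne_zero_of_dvd hi (φ y) fun m hm hm' => Nat.dvd_factorial hm hm'

theorem coc_exp {p : ℕ} (S : SerApi p) {Z L : Subgroup G} (hs : Ser p Z L)
    (h1 : ∀ x : X, IsOfFinOrder x) (h2 : ∀ m : ℕ, 0 < m → {x : X | x ^ m = 1}.Finite)
    (h3 : ∀ x : X, x ^ p = 1 → x = 1) (h : ∀ g h, δ (g * h) = δ g * φ g (δ h))
    (hZ : ∀ z ∈ Z, δ z = 1) : ∃ M : ℕ, 0 < M ∧ ∀ g ∈ L, δ g ^ M = 1 := by
  induction hs with
  | refl => exact ⟨1, one_pos, fun g hg => by rw [hZ g hg, one_pow]⟩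
  | @tail L L' _ hf ih =>
    obtain ⟨M, hM, ih⟩ := ih
    obtain ⟨hle, hnz, ⟨t, -, rfl⟩ | ⟨hp, hd⟩⟩ := S.step G L L' hf
    · obtain ⟨r, hr, e⟩ := isOfFinOrder_iff_pow_eq_one.1 (h1 (δ t))
      refine ⟨M * r, Nat.mul_pos hM hr, fun g hg => ?_⟩
      have hsub : L ⊔ Subgroup.zpowers t ≤ cocKer h (M * r) := sup_le
        (fun a ha => by
          change δ a ^ (M * r) = 1
          rw [pow_mul, ih a ha, one_pow])
        ((Subgroup.zpowers_le).2 (by
          change δ t ^ (M * r) = 1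
          rw [mul_comm, pow_mul, e, one_pow]))
      exact hsub hg
    · refine ⟨M, hM, fun x hx => ?_⟩
      have hε : ∀ g g', δ (g * g') ^ M = δ g ^ M * φ g (δ g' ^ M) := fun g g' => by
        rw [h, mul_pow, map_pow]
      have fixL : ∀ y ∈ L', ∀ a ∈ L, φ a (δ y ^ M) = δ y ^ M := fun y hy a ha => by
        have e1 := hε a y
        have e2 := hε y (y⁻¹ * a * y⁻¹⁻¹)
        rw [ih _ (hnz _ (L'.inv_mem hy) a ha), map_one, mul_one,
          show y * (y⁻¹ * a * y⁻¹⁻¹) = a * y by group] at e2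
        rw [ih a ha, one_mul] at e1
        rw [← e1, e2]
      have fixL' : ∀ y ∈ L', ∀ a ∈ L', φ a (δ y ^ M) = δ y ^ M := fun y hy a ha => by
        obtain ⟨N, hN, e⟩ := exists_pow_fix φ h1 h2 (δ y ^ M)
        obtain ⟨w, -, hw⟩ := hd a ha N hN
        have e1 := e w
        rw [show w ^ N = a * (a⁻¹ * w ^ N) by group, map_mul, MulAut.mul_apply,
          fixL y hy _ hw] at e1
        exact e1
      have hpw : ∀ n : ℕ, δ (x ^ n) ^ M = (δ x ^ M) ^ n := fun n => by
        induction n with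
        | zero => simp [coc_one h]
        | succ n ihn => rw [pow_succ, hε, ihn, fixL' x hx _ (L'.pow_mem hx n), pow_succ]
      obtain ⟨j, hj⟩ := hp x hx
      exact pow_pow_eq_one h3 _ j (by rw [← hpw, ih _ hj])

theorem coc_fin {p : ℕ} (S : SerApi p) {Z : Subgroup G} (hs : Ser p Z ⊤)
    (h1 : ∀ x : X, IsOfFinOrder x) (h2 : ∀ m : ℕ, 0 < m → {x : X | x ^ m = 1}.Finite)
    (h3 : ∀ x : X, x ^ p = 1 → x = 1) (h : ∀ g h, δ (g * h) = δ g * φ g (δ h))
    (hZ : ∀ z ∈ Z, δ z = 1) : (Set.range δ).Finite := by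
  obtain ⟨M, hM, e⟩ := coc_exp S hs h1 h2 h3 h hZ
  exact (h2 M hM).subset (by
    rintro _ ⟨g, rfl⟩
    exact e g trivial)

end Coc

theorem hom_fin {G X : Type} [Group G] [CommGroup X] {p : ℕ} (S : SerApi p)
    (h3 : ∀ x : X, x ^ p = 1 → x = 1) {H K : Subgroup G} (hs : Ser p H K) (P : G → Set X)
    (hP : ∀ g ∈ K, (P g).Finite) :
    {f : K →* X | (∀ x : K, (x : G) ∈ H → f x = 1) ∧ ∀ x : K, f x ∈ P x}.Finite := by
  induction hs with
  | refl =>
    refine Set.Subsingleton.finite fun f hf g hg => MonoidHom.ext fun x => ?_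
    rw [hf.1 x x.2, hg.1 x x.2]
  | @tail L L' _ hf ih =>
    obtain ⟨hle, -, hcase⟩ := S.step G L L' hf
    have ih' := ih fun g hg => hP g (hle hg)
    have hres : ∀ f : L' →* X, (∀ x : L', (x : G) ∈ H → f x = 1) ∧ (∀ x : L', f x ∈ P x) →
        (∀ x : L, (x : G) ∈ H → f.comp (Subgroup.inclusion hle) x = 1) ∧
          ∀ x : L, f.comp (Subgroup.inclusion hle) x ∈ P x := fun f hf =>
      ⟨fun x hx => hf.1 _ hx, fun x => hf.2 (Subgroup.inclusion hle x)⟩
    rcases hcase with ⟨t, ht, e⟩ | ⟨hp, -⟩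
    · refine Set.Finite.of_injOn (f := fun f : L' →* X => (f.comp (Subgroup.inclusion hle), f ⟨t, ht⟩))
        (fun f hf => Set.mk_mem_prod (hres f hf) (hf.2 ⟨t, ht⟩)) (fun f _ g _ hfg => ?_)
        (ih'.prod (hP t ht))
      obtain ⟨e1, e2⟩ := Prod.ext_iff.1 hfg
      have hsub : L ⊔ Subgroup.zpowers t ≤ (f.eqLocus g).map L'.subtype := sup_le
        (fun a ha => ⟨⟨a, hle ha⟩,
          show f ⟨a, hle ha⟩ = g ⟨a, hle ha⟩ from DFunLike.congr_fun e1 (⟨a, ha⟩ : L), rfl⟩)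
        ((Subgroup.zpowers_le).2 ⟨⟨t, ht⟩, e2, rfl⟩)
      refine MonoidHom.ext fun x => ?_
      obtain ⟨y, hy, e3⟩ := hsub (e ▸ x.2 : (x : G) ∈ L ⊔ Subgroup.zpowers t)
      rwa [← show y = x from Subtype.ext e3]
    · refine Set.Finite.of_injOn (f := fun f : L' →* X => f.comp (Subgroup.inclusion hle))
        (fun f hf => hres f hf) (fun f _ g _ hfg => MonoidHom.ext fun x => ?_) ih'
      obtain ⟨j, hj⟩ := hp x x.2
      have e1 : f (x ^ p ^ j) = g (x ^ p ^ j) := DFunLike.congr_fun hfg ⟨x ^ p ^ j, hj⟩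
      rw [← mul_inv_eq_one]
      refine pow_pow_eq_one h3 _ j ?_
      rw [mul_pow, inv_pow, ← map_pow, ← map_pow, e1, mul_inv_cancel]

theorem hom (hS : SSer) : SHom := by
  intro p _ k _ _ hk
  have S := hS p
  refine ⟨fun G _ H K hs f hf => ?_, fun G _ H K hs m hm => ?_, fun G _ H K hs hper => ?_,
    fun G X _ _ Z hs h1 h2 h3 φ δ h hZ => coc_fin S hs h1 h2 h3 h hZ⟩
  · have hs' : Ser p (H.subgroupOf K) ⊤ := by
      have := S.comap G K K.subtype H K hs
      rwa [show K.comap K.subtype = ⊤ from K.subgroupOf_self] at this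
    exact coc_fin (φ := 1) S hs' (units_tors hk) units_fin (units_noPT p)
      (fun g h => by simp) fun z hz => hf z hz
  · exact hom_fin S (units_noPT p) hs (fun _ => {y | y ^ m = 1}) fun _ _ => units_fin m hm
  · classical
    choose! m hm1 hm2 using hper
    refine (hom_fin S (units_noPT p) hs (fun g => {y : kˣ | y ^ m g = 1})
      fun g hg => units_fin _ (hm1 g hg)).subset fun f hf => ⟨hf, fun x => ?_⟩
    change f x ^ m x = 1
    rw [← map_pow]
    exact hf _ (hm2 x x.2)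

end Pool.Agent.MP_6a4325_al.H97
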