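import Pool.Agent.MP_6a4325_al.H84.Spec3

/-! Irreducible subrepresentations and induction along short exact sequences. -/

set_option autoImplicit false

namespace Pool.Agent.MP_6a4325_al.H97

open Pool.Agent.MP_6a4325_al.H62 Pool.Agent.MP_6a4325_al.H84 Module

theorem smin : SMin := by
  intro k G M _ _ _ _ ρ _ _
  obtain ⟨U, ⟨h0, h⟩, hm⟩ := exists_minimal_of_wellFoundedLT
    (fun U : Submodule k M => U ≠ ⊥ ∧ Inv ρ U) ⟨⊤, top_ne_bot, fun _ _ _ => trivial⟩
  refine ⟨U, h, ⟨Submodule.nontrivial_iff_ne_bot.2 h0, fun V hV => ?_⟩, U.subtype, U.mkQ,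
    U.injective_subtype, U.mkQ_surjective, by rw [U.range_subtype, U.ker_mkQ], fun _ _ => rfl,
    fun _ _ => rfl⟩
  refine or_iff_not_imp_left.2 fun h1 => top_le_iff.1 fun u _ => ?_
  have h2 : U ≤ V.map U.subtype := hm ⟨fun e => h1 (Submodule.map_injective_of_injective
    U.injective_subtype (e.trans (Submodule.map_bot _).symm)), by
      rintro g _ ⟨v, hv, rfl⟩
      exact ⟨_, hV g v hv, rfl⟩⟩ (U.map_subtype_le V)
  obtain ⟨v, hv, e⟩ := h2 u.2
  exact (Subtype.ext e : v = u) ▸ hv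

theorem indP : SIndP := by
  intro k G _ _ P h0 h1 h2 M _ _ ρ hM
  induction hn : finrank k M using Nat.strong_induction_on generalizing M with
  | _ n ih =>
    rcases subsingleton_or_nontrivial M with h | h
    · exact h0 M ρ h
    obtain ⟨U, hU, hi, hs⟩ := smin k G M ρ hM h
    refine h2 _ _ _ _ _ _ hM hs (h1 _ _ inferInstance hi) (ih _ ?_ _ _ inferInstance rfl)
    have := hi.1
    have := U.finrank_quotient_add_finrank
    have := finrank_pos (R := k) (M := U)
    omega

theorem ssum : SSum := by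
  intro k G _ _ m A s hA ha hs
  refine indP k G (fun M _ _ ρ => ∑ i, s i M ρ ≤ finrank k M) (fun M _ _ ρ h => ?_)
    (fun M _ _ ρ hM hi => ?_) fun M₁ M M₂ _ _ _ _ _ _ ρ₁ ρ ρ₂ hM he p₁ p₂ => ?_
  · refine (Finset.sum_eq_zero fun i _ => ?_).trans_le (Nat.zero_le _)
    have := ha i M M M ρ ρ ρ inferInstance ⟨LinearMap.id, LinearMap.id, Function.injective_id,
      Function.surjective_id, Subsingleton.elim _ _, fun _ _ => rfl, fun _ _ => rfl⟩
    omega
  · by_cases h : ∃ i, finrank k M ∈ A i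
    · obtain ⟨i, h⟩ := h
      rw [Finset.sum_eq_single i (fun j _ hj => (hs j M ρ hM hi).2
        (Set.disjoint_right.1 (hA j i hj) h)) (by simp), (hs i M ρ hM hi).1 h]
    · exact (Finset.sum_eq_zero fun i _ => (hs i M ρ hM hi).2 fun e => h ⟨i, e⟩).trans_le
        (Nat.zero_le _)
  · simp only [fun i => ha i M₁ M M₂ ρ₁ ρ ρ₂ hM he, Finset.sum_add_distrib]
    obtain ⟨f, g, hf, hg, e, -⟩ := he
    have := g.finrank_range_add_finrank_ker
    rw [← e, LinearMap.finrank_range_of_inj hf, LinearMap.range_eq_top.2 hg, finrank_top] at this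
    omega

end Pool.Agent.MP_6a4325_al.H97
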